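import Pool.Agent.Helper18.SU.Goals

set_option autoImplicit false

namespace Pool.Agent.Helper83.SU

open Pool.Agent.Helper18.SU

open Classical in
theorem ONE (h : PTF_stmt) : ONE_stmt := by
  intro W V _ _ A hA r par sgn S X Y f hf hS b c hb hcS hp0 hpar hinj hY hfY hArc
  obtain ⟨g, hg1, hg2, hg3⟩ := h V A hA b (fun i => sgn (c (i + 1))) Y hY
  obtain ⟨hf1, hf2, hf3⟩ := hf
  let f' : W → V := fun v => if hv : ∃ i, i < b ∧ v = c i then g (Classical.choose hv) else f v
  have hfc : ∀ i, i < b → f' (c i) = g i := by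
    intro i hi
    have hv : ∃ j, j < b ∧ c i = c j := ⟨i, hi, rfl⟩
    have hc := Classical.choose_spec hv
    have : Classical.choose hv = i := (hinj i hi _ hc.1 hc.2).symm
    show (if hv : ∃ j, j < b ∧ c i = c j then g (Classical.choose hv) else f (c i)) = g i
    rw [dif_pos hv, this]
  have hfS : ∀ v ∈ S, f' v = f v := by
    intro v hv
    have hn : ¬ ∃ i, i < b ∧ v = c i := by
      rintro ⟨i, hi, rfl⟩
      exact hcS i hi hv
    show (if hv : ∃ i, i < b ∧ v = c i then g (Classical.choose hv) else f v) = f v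
    rw [dif_neg hn]
  refine ⟨f', hfS, fun i hi => by rw [hfc i hi]; exact hg1 i hi, ?_, ?_, ?_⟩
  · intro v hv
    rcases Finset.mem_union.mp hv with hv | hv
    · rw [hfS v hv]; exact Finset.mem_union_left _ (hf1 v hv)
    · obtain ⟨i, hi, rfl⟩ := Finset.mem_image.mp hv
      rw [hfc i (Finset.mem_range.mp hi)]
      exact Finset.mem_union_right _ (hg1 i (Finset.mem_range.mp hi))
  · intro u hu v hv huv
    rcases Finset.mem_union.mp hu with hu | hu
    · rcases Finset.mem_union.mp hv with hv | hv
      · rw [hfS u hu, hfS v hv] at huv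
        exact hf2 u hu v hv huv
      · obtain ⟨i, hi, rfl⟩ := Finset.mem_image.mp hv
        have hi' := Finset.mem_range.mp hi
        rw [hfS u hu, hfc i hi'] at huv
        exact absurd (huv ▸ hg1 i hi') (hfY u hu)
    · obtain ⟨j, hj, rfl⟩ := Finset.mem_image.mp hu
      have hj' := Finset.mem_range.mp hj
      rcases Finset.mem_union.mp hv with hv | hv
      · rw [hfS v hv, hfc j hj'] at huv
        exact absurd (huv ▸ hg1 j hj') (hfY v hv)
      · obtain ⟨i, hi, rfl⟩ := Finset.mem_image.mp hv
        have hi' := Finset.mem_range.mp hi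
        rw [hfc i hi', hfc j hj'] at huv
        rw [hg2 j hj' i hi' huv]
  · intro v hv hvr hpv
    rcases Finset.mem_union.mp hv with hv | hv
    · have hpS := hS v hv
      rw [hfS v hv, hfS _ hpS]
      exact hf3 v hv hvr hpS
    · obtain ⟨i, hi, rfl⟩ := Finset.mem_image.mp hv
      have hi' := Finset.mem_range.mp hi
      cases i with
      | zero =>
        rw [hfS _ hp0, hfc 0 hi']
        exact hArc _ (hg1 0 hi')
      | succ i =>
        rw [hpar i hi', hfc i (by omega), hfc (i + 1) hi']
        exact hg3 i hi'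

end Pool.Agent.Helper83.SU
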