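import Pool.Agent.Helper18.SU.Goals

set_option autoImplicit false

namespace Pool.Agent.Helper83.SU

open Pool.Agent.Helper18.SU

theorem orig_mono {V : Type} [DecidableEq V] (A : V → V → Prop) :
    ∀ (s : List Bool) (X Y : Finset V) (x : V), X ⊆ Y → Orig A s X x → Orig A s Y x := by
  intro s
  induction s with
  | nil => intro X Y x h hx; exact h hx
  | cons d s ih =>
    intro X Y x h hx
    obtain ⟨hxX, y, hy, hA, ho⟩ := hx
    exact ⟨h hxX, y, Finset.erase_subset_erase x h hy, hA,
      ih _ _ _ (Finset.erase_subset_erase x h) ho⟩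

theorem blk_le (d : Bool) : ∀ s : List Bool, blk d s ≤ s.length := by
  intro s
  induction s with
  | nil => simp [blk]
  | cons e s ih =>
    unfold blk
    split_ifs
    · simpa using ih
    · simp

theorem SUB (h : REA_stmt) : SUB_stmt := by
  intro k hk V _ A hA d s X W hs hX hWX hW hor
  have key : ∃ w ∈ W, blk d s + 2 ≤ (Reach A d X w).card := by
    rcases hor with h1 | h1
    · obtain ⟨_, h2, _, _, _, _, _, h8⟩ := h V A hA d X
      have hne : W.Nonempty := Finset.card_pos.mp (by omega)
      obtain ⟨u, hu, hmax⟩ := h8 W hWX hne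
      refine ⟨u, hu, le_trans h1 (Finset.card_le_card ?_)⟩
      intro v hv
      exact hmax v hv (h2 v (hWX hv))
    · exact h1
  obtain ⟨w, hw, hcard⟩ := key
  obtain ⟨w', hw', hne⟩ := Finset.exists_mem_ne (by omega : 1 < W.card) w
  rcases hk V A hA d s X hs hX w (hWX hw) w' (hWX hw') (Ne.symm hne)
    (le_trans hcard (Finset.card_le_card Finset.subset_union_left)) with h1 | h1
  · exact ⟨w, hw, h1⟩
  · exact ⟨w', hw', h1⟩

theorem PTL (h : REA_stmt) : PTL_stmt := by
  intro m hm V _ A hA s X hs hX
  cases s with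
  | nil =>
    have hne : X.Nonempty := Finset.card_pos.mp (by simp at hX; omega)
    obtain ⟨x, hx⟩ := hne
    exact ⟨x, hx⟩
  | cons d s =>
    simp only [List.length_cons] at hs hX
    obtain ⟨X', hX', hcard⟩ := Finset.exists_subset_card_eq (by omega : s.length + 3 ≤ X.card)
    obtain ⟨w, _, ho⟩ := SUB h s.length (hm _ (by omega)) V A hA d s X' X' rfl hcard
      (Finset.Subset.refl _) (by omega) (Or.inl (by have := blk_le d s; omega))
    exact ⟨w, orig_mono A _ _ _ _ hX' ho⟩

end Pool.Agent.Helper83.SU
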